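import Mathlib
import Pool.Prelude.Def_F_7546141c
import Pool.Graph.R_seed8.Helper352.Gap
import Pool.Graph.R_seed8.Helper352.Rank

/-!
# Multiplicative gaps in the set of n with gcd(a_n, L_n) = 1 at a syndetic set of scales

`gap_real` is an adaptation of the theorem of the same name in
`Pool.Graph.R_seed8.Helper352.Gap`: Kronecker's theorem is replaced by a version with a bounded
waiting time.
-/

set_option autoImplicit false

namespace KS6_73.HG

open Nbb67e70a Finset Filter Topology Pool.Agent.Helper352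

/-- almost periods of a linear flow on a torus are relatively dense -/
lemma almost_period {ι : Type*} [Fintype ι] (ω : ι → ℝ) (η : ℝ) (hη : 0 < η) :
    ∃ S : ℝ, 0 ≤ S ∧ ∀ u : ℝ, 0 ≤ u → ∃ s : ℝ, 0 ≤ s ∧ s ≤ S ∧
      ∀ i, ∃ f : ℤ, |(u - s) * ω i - f| < η := by
  classical
  obtain ⟨N, hN⟩ := exists_nat_gt (1 / η)
  have hN0 : (0 : ℝ) < N := lt_trans (by positivity) hN
  have hN' : 0 < N := by exact_mod_cast hN0
  have hNη : 1 / (N : ℝ) < η := by
    rw [div_lt_iff₀ hN0]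
    rw [div_lt_iff₀ hη] at hN
    linarith
  have hlt : ∀ y : ℝ, ⌊(N : ℝ) * Int.fract y⌋₊ < N := by
    intro y
    rw [Nat.floor_lt (by have := Int.fract_nonneg y; positivity)]
    have := Int.fract_lt_one y
    nlinarith
  let box : ℝ → (ι → Fin N) := fun u i => ⟨⌊(N : ℝ) * Int.fract (u * ω i)⌋₊, hlt _⟩
  -- representatives
  have hrep : ∀ b : ι → Fin N, ∃ s : ℝ, 0 ≤ s ∧ ∀ u : ℝ, 0 ≤ u → box u = b → box s = b := by
    intro b
    by_cases h : ∃ u : ℝ, 0 ≤ u ∧ box u = b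
    · obtain ⟨u, hu, hb⟩ := h
      exact ⟨u, hu, fun _ _ _ => hb⟩
    · push Not at h
      exact ⟨0, le_rfl, fun u hu hb => absurd hb (h u hu)⟩
  choose s hs0 hs using hrep
  refine ⟨∑ b, s b, Finset.sum_nonneg fun b _ => hs0 b, fun u hu => ?_⟩
  refine ⟨s (box u), hs0 _, Finset.single_le_sum (f := s) (fun b _ => hs0 b) (mem_univ _),
    fun i => ?_⟩
  have hbox := hs (box u) u hu rfl
  have h1 : ⌊(N : ℝ) * Int.fract (s (box u) * ω i)⌋₊ = ⌊(N : ℝ) * Int.fract (u * ω i)⌋₊ :=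
    congrArg Fin.val (congrFun hbox i)
  set A := Int.fract (u * ω i) with hA
  set A' := Int.fract (s (box u) * ω i) with hA'
  have hA0 : 0 ≤ A := Int.fract_nonneg _
  have hA'0 : 0 ≤ A' := Int.fract_nonneg _
  have h2 : (⌊(N : ℝ) * A'⌋₊ : ℝ) ≤ N * A' := Nat.floor_le (by positivity)
  have h3 : (N : ℝ) * A' < ⌊(N : ℝ) * A'⌋₊ + 1 := Nat.lt_floor_add_one _
  have h4 : (⌊(N : ℝ) * A⌋₊ : ℝ) ≤ N * A := Nat.floor_le (by positivity)
  have h5 : (N : ℝ) * A < ⌊(N : ℝ) * A⌋₊ + 1 := Nat.lt_floor_add_one _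
  rw [h1] at h2 h3
  refine ⟨⌊u * ω i⌋ - ⌊s (box u) * ω i⌋, ?_⟩
  have h6 : (u - s (box u)) * ω i - ((⌊u * ω i⌋ - ⌊s (box u) * ω i⌋ : ℤ) : ℝ) = A - A' := by
    rw [hA, hA', Int.fract, Int.fract]
    push_cast
    ring
  rw [h6]
  refine lt_of_le_of_lt ?_ hNη
  rw [le_div_iff₀ hN0]
  have h7 : |A - A'| * N = |N * A - N * A'| := by
    rw [← mul_sub, abs_mul, abs_of_pos hN0, mul_comm]
  rw [h7, abs_le]
  constructor <;> linarith

/-- **Kronecker's theorem with a bounded waiting time.** -/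
lemma kronecker_synd {ι : Type*} [Fintype ι] [DecidableEq ι] (ω β : ι → ℝ)
    (h : ∀ c : ι → ℤ, ∑ i, (c i : ℝ) * ω i = 0 → ∃ n : ℤ, ∑ i, (c i : ℝ) * β i = n)
    (ε : ℝ) (hε : 0 < ε) :
    ∃ S : ℝ, 0 < S ∧ ∀ T : ℝ, 0 ≤ T → ∃ t, T < t ∧ t ≤ T + S ∧
      ∀ i, ∃ n : ℤ, |t * ω i - β i - n| < ε := by
  obtain ⟨t₀, ht₀, h0⟩ := kronecker ω β h (ε / 2) (by linarith) 0
  obtain ⟨S₁, hS₁, h1⟩ := almost_period ω (ε / 2) (by linarith)
  refine ⟨S₁ + t₀, by linarith, fun T hT => ?_⟩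
  obtain ⟨s, hs0, hs1, hs⟩ := h1 (T + S₁) (by linarith)
  refine ⟨T + S₁ - s + t₀, by linarith, by linarith, fun i => ?_⟩
  obtain ⟨m, hm⟩ := h0 i
  obtain ⟨f, hf⟩ := hs i
  refine ⟨m + f, ?_⟩
  have e : (T + S₁ - s + t₀) * ω i - β i - ((m + f : ℤ) : ℝ) =
      (t₀ * ω i - β i - m) + ((T + S₁ - s) * ω i - f) := by
    push_cast; ring
  rw [e]
  calc _ ≤ |t₀ * ω i - β i - m| + |(T + S₁ - s) * ω i - f| := abs_add_le _ _
    _ < ε := by linarith

theorem gap_real (hIR : InfRank) (M : ℕ) :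
    ∃ C : ℝ, 0 < C ∧ ∀ Y : ℝ, 1 ≤ Y → ∃ x : ℝ, Y ≤ x ∧ x ≤ C * Y ∧ 0 < x ∧
      ∀ n : ℕ, 3 * x ≤ n → (n : ℝ) < (M / 2 : ℝ) * x → Nat.gcd (a n) (L n) ≠ 1 := by
  classical
  -- primes attached to the intervals
  let p : ℕ → ℕ := fun j => (a j).minFac
  have hp : ∀ j, 2 ≤ j → (p j).Prime := fun j hj =>
    Nat.minFac_prime (by have := one_lt_a hj; omega)
  have hpa : ∀ j, p j ∣ a j := fun j => Nat.minFac_dvd _
  let W0 : Submodule ℚ ℝ := Submodule.span ℚ (Set.range fun j : Fin (M + 1) => (Real.log (p j))⁻¹)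
  have hW0 : Module.Finite ℚ W0 := Module.Finite.span_of_finite ℚ (Set.finite_range _)
  obtain ⟨l, hl, hind⟩ := exists_extra hIR W0 hW0 (M + 1)
  have hl3 : ∀ j, 3 ≤ l j := fun j => by
    have := (hl j).1.two_le
    have := (hl j).2
    omega
  -- constants
  have hgap : ∀ j, 0 < Real.log (l j) - Real.log (l j - 1 : ℕ) := by
    intro j
    have h3 := hl3 j
    have : Real.log (l j - 1 : ℕ) < Real.log (l j) := by
      apply Real.log_lt_log
      · have : 0 < l j - 1 := by omega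
        exact_mod_cast this
      · have : l j - 1 < l j := by omega
        exact_mod_cast this
    linarith
  obtain ⟨δ, hδ0, hδ1, hδ2⟩ : ∃ δ : ℝ, 0 < δ ∧ δ ≤ 1 / 4 ∧
      ∀ j, 4 * δ ≤ Real.log (l j) - Real.log (l j - 1 : ℕ) := by
    have hne : (univ : Finset (Fin (M + 1))).Nonempty := univ_nonempty
    let m := univ.inf' hne (fun j => Real.log (l j) - Real.log (l j - 1 : ℕ))
    have hm : 0 < m := by
      rw [Finset.lt_inf'_iff]
      intro j _
      exact hgap j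
    refine ⟨min (1 / 4) (m / 4), ?_, min_le_left _ _, ?_⟩
    · exact lt_min (by norm_num) (by linarith)
    · intro j
      have h1 : min (1 / 4) (m / 4) ≤ m / 4 := min_le_right _ _
      have h2 : m ≤ Real.log (l j) - Real.log (l j - 1 : ℕ) := Finset.inf'_le _ (mem_univ j)
      linarith
  obtain ⟨Λ, hΛ0, hΛp, hΛl⟩ : ∃ Λ : ℝ, 0 < Λ ∧ (∀ j : Fin (M + 1), Real.log (p j) ≤ Λ) ∧
      (∀ j : Fin (M + 1), Real.log (l j) ≤ Λ) := by
    refine ⟨1 + ∑ j : Fin (M + 1), |Real.log (p j)| + ∑ j : Fin (M + 1), |Real.log (l j)|,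
      by positivity, ?_, ?_⟩
    · intro j
      have h1 : |Real.log (p j)| ≤ ∑ j : Fin (M + 1), |Real.log (p j)| :=
        Finset.single_le_sum (f := fun j : Fin (M + 1) => |Real.log (p j)|)
          (fun _ _ => abs_nonneg _) (mem_univ j)
      have h2 : 0 ≤ ∑ j : Fin (M + 1), |Real.log (l j)| :=
        Finset.sum_nonneg (fun _ _ => abs_nonneg _)
      have h3 := le_abs_self (Real.log (p j))
      linarith
    · intro j
      have h1 : |Real.log (l j)| ≤ ∑ j : Fin (M + 1), |Real.log (l j)| :=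
        Finset.single_le_sum (f := fun j : Fin (M + 1) => |Real.log (l j)|)
          (fun _ _ => abs_nonneg _) (mem_univ j)
      have h2 : 0 ≤ ∑ j : Fin (M + 1), |Real.log (p j)| :=
        Finset.sum_nonneg (fun _ _ => abs_nonneg _)
      have h3 := le_abs_self (Real.log (l j))
      linarith
  set ε : ℝ := δ / Λ with hε
  have hε0 : 0 < ε := by positivity
  have hεΛ : ε * Λ = δ := by rw [hε]; field_simp
  -- Kronecker data
  let ω : Fin (M + 1) ⊕ Fin (M + 1) → ℝ :=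
    Sum.elim (fun j => (Real.log (p j))⁻¹) (fun j => (Real.log (l j))⁻¹)
  let B : Fin (M + 1) → ℝ := fun j =>
    ((Real.log (l j - 1 : ℕ) + Real.log (l j)) / 2 - Real.log (j : ℕ)) * (Real.log (l j))⁻¹
  let β : Fin (M + 1) ⊕ Fin (M + 1) → ℝ := Sum.elim (fun _ => 0) B
  have hrel : ∀ c : Fin (M + 1) ⊕ Fin (M + 1) → ℤ, ∑ i, (c i : ℝ) * ω i = 0 →
      ∃ n : ℤ, ∑ i, (c i : ℝ) * β i = n := by
    intro c hc
    refine ⟨0, ?_⟩
    rw [Fintype.sum_sum_type] at hc ⊢
    simp only [ω, β, Sum.elim_inl, Sum.elim_inr] at hc ⊢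
    have hmem : ∑ j : Fin (M + 1), ((c (Sum.inr j) : ℤ) : ℚ) • (Real.log (l j))⁻¹ ∈ W0 := by
      have e1 : ∑ j : Fin (M + 1), ((c (Sum.inr j) : ℤ) : ℚ) • (Real.log (l j))⁻¹
          = - ∑ j : Fin (M + 1), ((c (Sum.inl j) : ℤ) : ℚ) • (Real.log (p j))⁻¹ := by
        have e2 : ∀ (q : ℤ) (y : ℝ), ((q : ℤ) : ℚ) • y = (q : ℝ) * y := by
          intro q y
          rw [Rat.smul_def]; push_cast; rfl
        simp only [e2]
        linarith
      rw [e1]
      refine Submodule.neg_mem _ (Submodule.sum_mem _ ?_)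
      intro j _
      exact Submodule.smul_mem _ _ (Submodule.subset_span ⟨j, rfl⟩)
    have hz := hind _ hmem
    have hz' : ∀ j, c (Sum.inr j) = 0 := by
      intro j
      have := congrFun hz j
      simpa using this
    simp [hz']
  -- choose the scale
  obtain ⟨S, hS, hkron⟩ := kronecker_synd ω β hrel ε hε0
  have hlogM : 0 ≤ Real.log (M + 1 : ℝ) := Real.log_nonneg (by linarith [Nat.cast_nonneg (α := ℝ) M])
  set T₁ : ℝ := 2 * Λ + 2 + Real.log (M + 1) with hT₁
  have hT₁0 : 0 < T₁ := by rw [hT₁]; positivity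
  refine ⟨Real.exp (S + T₁), Real.exp_pos _, fun Y hY => ?_⟩
  have hY0 : 0 < Y := by linarith
  have hlogY : 0 ≤ Real.log Y := Real.log_nonneg hY
  obtain ⟨t, ht, htS, hclose⟩ := hkron (max (Real.log Y) T₁) (le_max_of_le_left hlogY)
  have ht1 : Real.log Y < t := lt_of_le_of_lt (le_max_left _ _) ht
  have ht2 : 2 * Λ + 2 + Real.log (M + 1) < t := lt_of_le_of_lt (le_max_right _ _) ht
  set x := Real.exp t with hx
  have hx0 : 0 < x := Real.exp_pos t
  refine ⟨x, ?_, ?_, hx0, ?_⟩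
  · rw [hx, ← Real.exp_log hY0]
    exact Real.exp_le_exp.mpr ht1.le
  · have h1 : t ≤ (S + T₁) + Real.log Y := by
      have := max_le_add_of_nonneg hlogY hT₁0.le
      linarith
    calc x ≤ Real.exp ((S + T₁) + Real.log Y) := Real.exp_le_exp.mpr h1
      _ = Real.exp (S + T₁) * Y := by rw [Real.exp_add, Real.exp_log hY0]
  intro n hn1 hn2 hgcd
  have hlogx : Real.log x = t := by rw [hx, Real.log_exp]
  have hnpos : (0 : ℝ) < n := by nlinarith
  have hnpos' : 0 < n := by exact_mod_cast hnpos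
  -- the multiple
  set j := ⌊(n : ℝ) / x⌋₊ with hj
  have hj1 : (j : ℝ) ≤ n / x := Nat.floor_le (by positivity)
  have hj2 : (n : ℝ) / x < j + 1 := Nat.lt_floor_add_one _
  have hj3 : 3 ≤ j := by
    apply Nat.le_floor
    rw [le_div_iff₀ hx0]
    exact_mod_cast hn1
  have hjM : j < M := by
    have h1 : (j : ℝ) < M := by
      calc (j : ℝ) ≤ n / x := hj1
        _ < M / 2 := by rw [div_lt_iff₀ hx0]; exact hn2
        _ ≤ M := by linarith [Nat.cast_nonneg (α := ℝ) M]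
    exact_mod_cast h1
  have hj0 : (0 : ℝ) < j := by
    have : 0 < j := by omega
    exact_mod_cast this
  have hlogn1 : t + Real.log j ≤ Real.log n := by
    rw [← hlogx, add_comm, ← Real.log_mul hj0.ne' hx0.ne']
    apply Real.log_le_log (by positivity)
    rwa [le_div_iff₀ hx0] at hj1
  have hlogn2 : Real.log n < t + Real.log (j + 1 : ℕ) := by
    have hj10 : (0 : ℝ) < ((j + 1 : ℕ) : ℝ) := by positivity
    rw [← hlogx, add_comm, ← Real.log_mul hj10.ne' hx0.ne']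
    apply Real.log_lt_log hnpos
    rw [div_lt_iff₀ hx0] at hj2
    push_cast
    exact hj2
  -- windows
  have hwin : ∀ i : Fin (M + 1), 1 ≤ (i : ℕ) → |Real.log n - (t + Real.log (i : ℕ))| < δ → False := by
    intro i hi1 hi
    obtain ⟨f, hf⟩ := hclose (Sum.inr i)
    simp only [ω, β, Sum.elim_inr, B] at hf
    have hll : 0 < Real.log (l i) := Real.log_pos (by have := hl3 i; exact_mod_cast (by omega : 1 < l i))
    have hli0 : Real.log (l i) ≠ 0 := hll.ne'
    have hf2 : |t + Real.log (i : ℕ) - ((f : ℝ) * Real.log (l i)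
        + (Real.log (l i - 1 : ℕ) + Real.log (l i)) / 2)| < δ := by
      have e1 : t + Real.log (i : ℕ) - ((f : ℝ) * Real.log (l i)
          + (Real.log (l i - 1 : ℕ) + Real.log (l i)) / 2)
          = (t * (Real.log (l i))⁻¹ - ((Real.log (l i - 1 : ℕ) + Real.log (l i)) / 2
            - Real.log (i : ℕ)) * (Real.log (l i))⁻¹ - f) * Real.log (l i) := by
        field_simp
        ring
      rw [e1, abs_mul, abs_of_pos hll]
      calc _ < ε * Real.log (l i) := mul_lt_mul_of_pos_right hf hll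
        _ ≤ ε * Λ := mul_le_mul_of_nonneg_left (hΛl i) hε0.le
        _ = δ := hεΛ
    -- f is a positive integer
    have hfpos : 0 < f := by
      by_contra hcon
      push Not at hcon
      have h1 : (f : ℝ) * Real.log (l i) ≤ 0 :=
        mul_nonpos_of_nonpos_of_nonneg (by exact_mod_cast hcon) hll.le
      have h2 := (abs_lt.mp hf2).2
      have h3 : 0 ≤ Real.log (i : ℕ) := Real.log_nonneg (by exact_mod_cast hi1)
      have h4 := hgap i
      have h5 := hΛl i
      linarith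
    obtain ⟨g, rfl⟩ := Int.eq_ofNat_of_zero_le hfpos.le
    have hg1 : 1 ≤ g := by exact_mod_cast hfpos
    simp only [Int.cast_natCast] at hf2
    have hdiv : n / (l i) ^ g = l i - 1 := by
      apply div_eq_of_window (hl i).1 (hl i).2 hnpos' (hδ2 i)
      calc |Real.log n - ((g : ℝ) * Real.log (l i) + (Real.log (l i - 1 : ℕ) + Real.log (l i)) / 2)|
          = |(Real.log n - (t + Real.log (i : ℕ))) + (t + Real.log (i : ℕ) - ((g : ℝ) * Real.log (l i)
            + (Real.log (l i - 1 : ℕ) + Real.log (l i)) / 2))| := by congr 1; ring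
        _ ≤ |Real.log n - (t + Real.log (i : ℕ))| + |t + Real.log (i : ℕ) - ((g : ℝ) * Real.log (l i)
            + (Real.log (l i - 1 : ℕ) + Real.log (l i)) / 2)| := abs_add_le _ _
        _ < 2 * δ := by linarith
    have hdvd := cover (hl i).1 hg1 hdiv (by have := hl3 i; omega) (dvd_a_pred (hl i).1 (hl i).2)
    rw [hgcd] at hdvd
    have := Nat.le_of_dvd one_pos hdvd
    have := hl3 i
    omega
  by_cases hB : Real.log n < t + Real.log j + δ
  · refine hwin ⟨j, by omega⟩ (by simp only; omega) ?_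
    simp only
    rw [abs_lt]
    constructor <;> linarith
  by_cases hC : t + Real.log (j + 1 : ℕ) - δ < Real.log n
  · refine hwin ⟨j + 1, by omega⟩ (by simp only; omega) ?_
    simp only
    rw [abs_lt]
    constructor <;> linarith
  push Not at hB hC
  -- interior of the interval
  have hjlt : j < M + 1 := by omega
  obtain ⟨f, hf⟩ := hclose (Sum.inl ⟨j, hjlt⟩)
  simp only [ω, β, Sum.elim_inl] at hf
  have hpj := hp j (by omega)
  have hll : 0 < Real.log (p j) := Real.log_pos (by exact_mod_cast hpj.one_lt)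
  have hli0 : Real.log (p j) ≠ 0 := hll.ne'
  have hΛpj : Real.log (p j) ≤ Λ := hΛp ⟨j, hjlt⟩
  have hf2 : |t - (f : ℝ) * Real.log (p j)| < δ := by
    have e1 : t - (f : ℝ) * Real.log (p j)
        = (t * (Real.log (p j))⁻¹ - 0 - f) * Real.log (p j) := by
      field_simp
      ring
    rw [e1, abs_mul, abs_of_pos hll]
    calc _ < ε * Real.log (p j) := mul_lt_mul_of_pos_right hf hll
      _ ≤ ε * Λ := mul_le_mul_of_nonneg_left hΛpj hε0.le
      _ = δ := hεΛ
  have hfpos : 0 < f := by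
    by_contra hcon
    push Not at hcon
    have h1 : (f : ℝ) * Real.log (p j) ≤ 0 :=
      mul_nonpos_of_nonpos_of_nonneg (by exact_mod_cast hcon) hll.le
    have h2 := (abs_lt.mp hf2).2
    linarith
  obtain ⟨g, rfl⟩ := Int.eq_ofNat_of_zero_le hfpos.le
  have hg1 : 1 ≤ g := by exact_mod_cast hfpos
  simp only [Int.cast_natCast] at hf2
  have hppos : (0 : ℝ) < p j := by exact_mod_cast hpj.pos
  rw [abs_lt] at hf2
  have hdiv : n / (p j) ^ g = j := by
    have h1 : Real.log ((j : ℝ) * (p j : ℝ) ^ g) ≤ Real.log n := by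
      rw [Real.log_mul hj0.ne' (by positivity), Real.log_pow]
      linarith [hf2.1]
    have h2 : Real.log n < Real.log (((j + 1 : ℕ) : ℝ) * (p j : ℝ) ^ g) := by
      rw [Real.log_mul (by positivity) (by positivity), Real.log_pow]
      linarith [hf2.2]
    have h1' : (j : ℝ) * (p j : ℝ) ^ g ≤ n :=
      (Real.log_le_log_iff (by positivity) hnpos).mp h1
    have h2' : (n : ℝ) < ((j + 1 : ℕ) : ℝ) * (p j : ℝ) ^ g :=
      (Real.log_lt_log_iff hnpos (by positivity)).mp h2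
    exact Nat.div_eq_of_lt_le (by exact_mod_cast h1') (by exact_mod_cast h2')
  have hdvd := cover hpj hg1 hdiv (by omega) (hpa j)
  rw [hgcd] at hdvd
  have := Nat.le_of_dvd one_pos hdvd
  have := hpj.two_le
  omega


/-- **Gaps at a syndetic set of scales.** -/
theorem gap_synd (K : ℕ) : ∃ C : ℝ, 0 < C ∧ ∀ Y : ℝ, 1 ≤ Y → ∃ X : ℕ, Y ≤ X ∧ (X : ℝ) ≤ C * Y ∧
    ∀ n : ℕ, X ≤ n → n ≤ K * X → Nat.gcd (a n) (L n) ≠ 1 := by
  obtain ⟨C, hC, h⟩ := gap_real inv_log_finite (8 * K + 8)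
  refine ⟨3 * C + 1, by linarith, fun Y hY => ?_⟩
  obtain ⟨x, hx1, hxC, hx0, hx⟩ := h Y hY
  have hx3 : (1 : ℝ) ≤ x := hY.trans hx1
  refine ⟨⌈3 * x⌉₊, ?_, ?_, ?_⟩
  · calc Y ≤ x := hx1
      _ ≤ 3 * x := by linarith
      _ ≤ _ := Nat.le_ceil _
  · have h1 : (⌈3 * x⌉₊ : ℝ) < 3 * x + 1 := Nat.ceil_lt_add_one (by positivity)
    nlinarith
  · intro n hn1 hn2
    apply hx n
    · exact (Nat.le_ceil _).trans (by exact_mod_cast hn1)
    · have h1 : (⌈3 * x⌉₊ : ℝ) < 3 * x + 1 := Nat.ceil_lt_add_one (by positivity)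
      have h2 : (n : ℝ) ≤ K * ⌈3 * x⌉₊ := by exact_mod_cast hn2
      have hK : (0 : ℝ) ≤ K := Nat.cast_nonneg K
      push_cast
      nlinarith

end KS6_73.HG
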